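import Pool.Agent.W803.GA.Pair
import Pool.Agent.W78.GC.Defs

/-!
Project GC, task GC-7 (helper571): pairs of close directions with different signs, coloured
(port of W803/GA/Pair of helper803).
-/

set_option autoImplicit false

namespace Pool.Agent.W571.GC

open Finset Filter
open Pool.Agent.H376R2.MR Pool.Agent.W78.GA Pool.Agent.W78.GC Pool.Agent.W803.GA

variable {t c : ℤ}

lemma mem_cball (hD : t ^ 2 < 4 * c) {col : Qd t c → Prop} {X : ℝ} {z : Qd t c} :
    z ∈ cball col X ↔ (prim z ∧ (nm z : ℝ) ≤ X) ∧ col z := by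
  classical
  unfold cball
  rw [mem_filter, mem_pball hD]

/-- a vector in the closed sector between two close directions is close to both -/
lemma between' (hD : t ^ 2 < 4 * c) {z y e : Qd t c} (hz : z ≠ 0) (hy : y ≠ 0) (he : e ≠ 0)
    (hd : 0 < dt z y) {δ : ℝ} (hδ : δ ≤ 1 / 2) {j : ℤ}
    (hs : |ang y - ang z + 2 * Real.pi * j| ≤ δ) (h1 : 0 ≤ dt z e) (h2 : 0 ≤ dt e y) :
    (∃ j : ℤ, |ang z - ang e + 2 * Real.pi * j| ≤ δ) ∧
      (∃ j : ℤ, |ang y - ang e + 2 * Real.pi * j| ≤ δ) := by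
  have hpi := Real.pi_gt_three
  have hq0 : 0 < Real.sqrt (4 * (c : ℝ) - t ^ 2) := by linarith [sqrt_disc hD]
  have nz : 0 < ‖tc z‖ := norm_pos_iff.2 (tc_ne_zero hD hz)
  have ny : 0 < ‖tc y‖ := norm_pos_iff.2 (tc_ne_zero hD hy)
  have ne : 0 < ‖tc e‖ := norm_pos_iff.2 (tc_ne_zero hD he)
  set s := ang y - ang z + 2 * Real.pi * j with hsdef
  have hs' := abs_le.1 hs
  have hsin : 0 < Real.sin s := by
    rw [hsdef, sin_add_two_pi_mul]
    have h3' : (0 : ℝ) < (dt z y : ℝ) := by exact_mod_cast hd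
    have h3 : (0 : ℝ) < (dt z y : ℝ) * Real.sqrt (4 * c - t ^ 2) / 2 := by positivity
    rw [dt_eq_sin hD] at h3
    exact (mul_pos_iff_of_pos_left (mul_pos nz ny)).1 h3
  have hspos : 0 < s := by
    by_contra hcon
    push Not at hcon
    have := Real.sin_nonpos_of_nonpos_of_neg_pi_le hcon (by linarith)
    linarith
  obtain ⟨m, hm⟩ := rd_eq (ang e - ang z)
  set τ := rd (ang e - ang z) with hτ
  have htabs := abs_le.1 (abs_rd_le (ang e - ang z))
  rw [← hτ] at htabs
  have hsint : 0 ≤ Real.sin τ := by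
    rw [hm, sin_add_two_pi_mul]
    have h3' : (0 : ℝ) ≤ (dt z e : ℝ) := by exact_mod_cast h1
    have h3 : (0 : ℝ) ≤ (dt z e : ℝ) * Real.sqrt (4 * c - t ^ 2) / 2 := by positivity
    rw [dt_eq_sin hD] at h3
    exact (mul_nonneg_iff_of_pos_left (mul_pos nz ne)).1 h3
  have hsinst : 0 ≤ Real.sin (s - τ) := by
    have e1 : s - τ = ang y - ang e + 2 * Real.pi * ((j - m : ℤ) : ℝ) := by
      rw [hm, hsdef]; push_cast; ring
    rw [e1, sin_add_two_pi_mul]
    have h3' : (0 : ℝ) ≤ (dt e y : ℝ) := by exact_mod_cast h2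
    have h3 : (0 : ℝ) ≤ (dt e y : ℝ) * Real.sqrt (4 * c - t ^ 2) / 2 := by positivity
    rw [dt_eq_sin hD] at h3
    exact (mul_nonneg_iff_of_pos_left (mul_pos ne ny)).1 h3
  have ht0 : 0 ≤ τ := by
    by_contra hcon
    push Not at hcon
    rcases htabs.1.lt_or_eq with h3 | h3
    · have := Real.sin_neg_of_neg_of_neg_pi_lt hcon h3
      linarith
    · rw [← h3] at hsinst
      have e1 : s - -Real.pi = s + Real.pi := by ring
      rw [e1, Real.sin_add_pi] at hsinst
      linarith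
  have hts : τ ≤ s := by
    by_contra hcon
    push Not at hcon
    have := Real.sin_neg_of_neg_of_neg_pi_lt (x := s - τ) (by linarith) (by linarith)
    linarith
  refine ⟨⟨-m, ?_⟩, ⟨j - m, ?_⟩⟩
  · have e1 : ang z - ang e + 2 * Real.pi * ((-m : ℤ) : ℝ) = -τ := by
      rw [hm]; push_cast; ring
    rw [e1, abs_neg, abs_of_nonneg ht0]
    linarith
  · have e1 : ang y - ang e + 2 * Real.pi * ((j - m : ℤ) : ℝ) = s - τ := by
      rw [hm, hsdef]; push_cast; ring
    rw [e1, abs_of_nonneg (by linarith)]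
    linarith

/-- a pair of close directions with different signs is close to an element of `B` -/
lemma near_B (hD : t ^ 2 < 4 * c) {col : Qd t c → Prop} {u : Qd t c} {U : ℝ}
    (hdiv : ∀ (m : ℕ) (z : Qd t c), col ((m : Qd t c) * z) → col z)
    (hmul : ∀ z, col z → col (u * z)) (hu0 : u ≠ 0) (hu : (nm u : ℝ) ≤ U) {X : ℝ}
    {B : Finset (Qd t c)} (hB0 : (0 : Qd t c) ∉ B) (hB : Hits col (U * X) B)
    {z z' : Qd t c} (hz : z ∈ cball col X)
    (hz' : z' ∈ cball col X) (hgl : gl z ≠ gl (u * z')) {δ : ℝ}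
    (hδ : δ ≤ 1 / 2) (hr : |rd (ang z - ang (u * z'))| ≤ δ) :
    ∃ q ∈ B, (∃ j : ℤ, |ang z - ang q + 2 * Real.pi * j| ≤ δ) ∧
      (∃ j : ℤ, |ang z' - (ang q - ang u) + 2 * Real.pi * j| ≤ δ) := by
  have hU : 1 ≤ U := by
    have : (1 : ℝ) ≤ nm u := by exact_mod_cast (one_le_nm hD).2 hu0
    linarith
  obtain ⟨hzp, hzc⟩ := (mem_cball hD).1 hz
  obtain ⟨hzp', hzc'⟩ := (mem_cball hD).1 hz'
  have hz0 := prim_ne_zero hzp.1
  have hz0' := prim_ne_zero hzp'.1
  have hw0 : u * z' ≠ 0 := mul_ne_zero' hD hu0 hz0'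
  obtain ⟨y, n, hn, hy, hw⟩ := exists_primpart hw0
  have hy0 := prim_ne_zero hy
  have hX0 : 0 ≤ X := (Nat.cast_nonneg _).trans hzp.2
  have hyc : col y := by
    apply hdiv n
    rw [← hw]
    exact hmul _ hzc'
  have hyX : y ∈ cball col (U * X) := by
    refine (mem_cball hD).2 ⟨⟨hy, ?_⟩, hyc⟩
    have h1 : nm (u * z') = n ^ 2 * nm y := by rw [hw, nm_mul, nm_natCast]
    rw [nm_mul] at h1
    have h2 : (nm y : ℝ) ≤ nm u * nm z' := by
      have : nm y ≤ nm u * nm z' := by
        rw [h1]; exact Nat.le_mul_of_pos_left _ (by positivity)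
      exact_mod_cast this
    calc (nm y : ℝ) ≤ nm u * nm z' := h2
      _ ≤ U * X := mul_le_mul hu hzp'.2 (Nat.cast_nonneg _) (by linarith)
  have hzX : z ∈ cball col (U * X) := (mem_cball hD).2 ⟨⟨hzp.1, by nlinarith [hzp.2]⟩, hzc⟩
  have hang : ang (u * z') = ang y := by rw [hw, ang_natCast_mul hD hn]
  have hgly : gl (u * z') = gl y := by rw [hw, gl_natCast_mul hn hD hy0]
  rw [hgly] at hgl
  rw [hang] at hr
  obtain ⟨j1, hj1⟩ := ang_mul hD hu0 hz0'
  rw [hang] at hj1
  obtain ⟨m, hm⟩ := rd_eq (ang z - ang y)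
  rw [hm] at hr
  have hdt : dt z y ≠ 0 := by
    intro h0
    rcases dt_zero hzp.1 hy h0 with h | h
    · exact hgl (by rw [h])
    · exact hgl (by rw [h, gl_neg])
  -- from closeness to `y` to closeness of `z'`
  have trans' : ∀ e : Qd t c, (∃ j : ℤ, |ang y - ang e + 2 * Real.pi * j| ≤ δ) →
      (∃ j : ℤ, |ang z' - (ang e - ang u) + 2 * Real.pi * j| ≤ δ) := by
    rintro e ⟨j, hj⟩
    refine ⟨j + j1, ?_⟩
    have e1 : ang z' - (ang e - ang u) + 2 * Real.pi * ((j + j1 : ℤ) : ℝ) =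
        ang y - ang e + 2 * Real.pi * j := by
      rw [hj1]; push_cast; ring
    rw [e1]; exact hj
  rcases lt_or_gt_of_ne hdt with hneg | hpos
  · have hd : 0 < dt y z := by
      have : dt y z = - dt z y := by unfold dt; ring
      omega
    obtain ⟨e, he, h1, h3⟩ := hB y z hyX hzX hd (by
      intro h; exact hgl h.symm)
    have he0 : e ≠ 0 := fun h => hB0 (h ▸ he)
    have hs : |ang z - ang y + 2 * Real.pi * m| ≤ δ := hr
    obtain ⟨g1, g2⟩ := between' hD hy0 hz0 he0 hd hδ hs h1 h3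
    exact ⟨e, he, g2, trans' _ g1⟩
  · obtain ⟨e, he, h1, h3⟩ := hB z y hzX hyX hpos hgl
    have he0 : e ≠ 0 := fun h => hB0 (h ▸ he)
    have hs : |ang y - ang z + 2 * Real.pi * ((-m : ℤ) : ℝ)| ≤ δ := by
      have : ang y - ang z + 2 * Real.pi * ((-m : ℤ) : ℝ) = -(ang z - ang y + 2 * Real.pi * m) := by
        push_cast; ring
      rw [this, abs_neg]; exact hr
    obtain ⟨g1, g2⟩ := between' hD hz0 hy0 he0 hpos hδ hs h1 h3
    exact ⟨e, he, g1, trans' _ g2⟩

theorem pairc (hD : t ^ 2 < 4 * c) (hsect : S_SECT t c) (hlat : S_LAT t c) : S_PAIRC t c := by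
  classical
  have hS := hsect
  have hL := hlat
  intro col u U hdiv hmul hu0 hnu
  obtain ⟨C, hC, hS⟩ := hS
  obtain ⟨CL, hCL, hL, -⟩ := hL
  have hpi := Real.pi_pos
  have hkap : 0 < kap t c := by
    unfold kap
    have := sqrt_disc hD
    positivity
  refine ⟨C ^ 2 + (kap t c + CL) * (8 * C * Real.pi ^ 2), by positivity, ?_⟩
  intro X T K B hX hT hK hTK hB0 hB
  have hX0 : 0 < X := by linarith
  have hT0 : 0 < T := by linarith
  have hKR : (1 : ℝ) ≤ K := by exact_mod_cast hK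
  have hK0 : (0 : ℝ) < K := by linarith
  have hδ : T / K ≤ 1 / 2 := by
    rw [div_le_div_iff₀ hK0 (by norm_num)]; linarith
  set r : Qd t c → Qd t c → ℝ := fun z z' => rd (ang z - ang (u * z')) with hr
  -- pointwise bound
  have hcp : cball col X ⊆ pball t c X := Finset.filter_subset _ _
  have hpt : ∀ z ∈ cball col X, ∀ z' ∈ cball col X,
      (if gl z ≠ gl (u * z') then Fj K (ang z - ang (u * z')) else 0) ≤
      (if gl z ≠ gl (u * z') ∧ |r z z'| ≤ T / K then (K : ℝ) else 0) +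
      ∑ j ∈ range (K + 2), (if |r z z'| ≤ 2 ^ (j + 1) * T / K then
        Real.pi ^ 2 * K / (T ^ 2) * (1 / 4) ^ j else 0) := by
    intro z _ z' _
    have h1 := pt_bound hK hT (abs_rd_le (ang z - ang (u * z')))
    have h2 : 0 ≤ ∑ j ∈ range (K + 2), (if |r z z'| ≤ 2 ^ (j + 1) * T / K then
        Real.pi ^ 2 * K / (T ^ 2) * (1 / 4) ^ j else 0) := by
      apply Finset.sum_nonneg
      intro j _
      split_ifs
      · positivity
      · exact le_rfl
    by_cases hg : gl z ≠ gl (u * z')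
    · rw [if_pos hg, Fj_rd]
      refine h1.trans ?_
      apply add_le_add _ le_rfl
      by_cases hn : |rd (ang z - ang (u * z'))| ≤ T / K
      · rw [if_pos hn, if_pos ⟨hg, hn⟩]
      · rw [if_neg hn]
        split_ifs
        · positivity
        · exact le_rfl
    · rw [if_neg hg]
      have : 0 ≤ (if gl z ≠ gl (u * z') ∧ |r z z'| ≤ T / K then (K : ℝ) else 0) := by
        split_ifs
        · positivity
        · exact le_rfl
      linarith
  -- near pairs
  have hnear : ∑ z ∈ cball col X, ∑ z' ∈ cball col X,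
      (if gl z ≠ gl (u * z') ∧ |r z z'| ≤ T / K then (K : ℝ) else 0) ≤
      C ^ 2 * (K * (T * X / K + 1) ^ 2 * (B.card : ℝ)) := by
    rw [← Finset.sum_product', ← Finset.sum_filter, Finset.sum_const, nsmul_eq_mul]
    set A1 : Qd t c → Finset (Qd t c) := fun e =>
      (pball t c X).filter (fun z => ∃ j : ℤ, |ang z - ang e + 2 * Real.pi * j| ≤ T / K) with hA
    set B1 : Qd t c → Finset (Qd t c) := fun e =>
      (pball t c X).filter (fun z => ∃ j : ℤ, |ang z - (ang e - ang u) + 2 * Real.pi * j| ≤ T / K)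
      with hBd
    have hsub : ((cball col X ×ˢ cball col X).filter
        (fun p : Qd t c × Qd t c => gl p.1 ≠ gl (u * p.2) ∧ |r p.1 p.2| ≤ T / K)) ⊆
        B.biUnion (fun e => A1 e ×ˢ B1 e) := by
      rintro ⟨z, z'⟩ hp
      rw [mem_filter, mem_product] at hp
      obtain ⟨⟨hz, hz'⟩, hg, hn⟩ := hp
      obtain ⟨e, he, h1, h2⟩ := near_B hD hdiv hmul hu0 hnu hB0 hB hz hz' hg hδ hn
      rw [mem_biUnion]
      exact ⟨e, he, mem_product.2 ⟨mem_filter.2 ⟨hcp hz, h1⟩, mem_filter.2 ⟨hcp hz', h2⟩⟩⟩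
    have hcard : (((cball col X ×ˢ cball col X).filter
        (fun p : Qd t c × Qd t c => gl p.1 ≠ gl (u * p.2) ∧ |r p.1 p.2| ≤ T / K)).card : ℝ) ≤
        (B.card : ℝ) * (C * (X * (T / K) + 1)) ^ 2 := by
      have h1 := (Finset.card_le_card hsub).trans Finset.card_biUnion_le
      have h2 : ((∑ e ∈ B, (A1 e ×ˢ B1 e).card : ℕ) : ℝ) ≤
          ∑ e ∈ B, (C * (X * (T / K) + 1)) ^ 2 := by
        push_cast
        apply Finset.sum_le_sum
        intro e _
        rw [Finset.card_product]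
        push_cast
        rw [pow_two]
        have hδ0 : 0 ≤ T / K := by positivity
        have hδπ : T / K ≤ Real.pi := by have := Real.pi_gt_three; linarith
        apply mul_le_mul
        · have := hS X (T / K) (ang e) hX hδ0 hδπ
          simpa [hA] using this
        · have := hS X (T / K) (ang e - ang u) hX hδ0 hδπ
          simpa [hBd] using this
        · positivity
        · positivity
      rw [Finset.sum_const, nsmul_eq_mul] at h2
      exact le_trans (by exact_mod_cast h1) h2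
    calc (((cball col X ×ˢ cball col X).filter
        (fun p : Qd t c × Qd t c => gl p.1 ≠ gl (u * p.2) ∧ |r p.1 p.2| ≤ T / K)).card : ℝ)
          * K ≤ (B.card : ℝ) * (C * (X * (T / K) + 1)) ^ 2 * K :=
          mul_le_mul_of_nonneg_right hcard hK0.le
      _ = C ^ 2 * (K * (T * X / K + 1) ^ 2 * (B.card : ℝ)) := by
          have : X * (T / K) = T * X / K := by ring
          rw [this]; ring
  -- far pairs
  have hfar : ∑ z ∈ pball t c X, ∑ z' ∈ pball t c X,
      ∑ j ∈ range (K + 2), (if |r z z'| ≤ 2 ^ (j + 1) * T / K then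
        Real.pi ^ 2 * K / (T ^ 2) * (1 / 4) ^ j else 0) ≤
      (kap t c + CL) * (8 * C * Real.pi ^ 2) * (X ^ 2 / T + X * K / T ^ 2) := by
    have hone : ∀ z ∈ pball t c X, ∑ z' ∈ pball t c X,
        ∑ j ∈ range (K + 2), (if |r z z'| ≤ 2 ^ (j + 1) * T / K then
          Real.pi ^ 2 * K / (T ^ 2) * (1 / 4) ^ j else 0) ≤
        8 * C * Real.pi ^ 2 * (X / T + K / T ^ 2) := by
      intro z _
      rw [Finset.sum_comm]
      have hj : ∀ j ∈ range (K + 2), ∑ z' ∈ pball t c X, (if |r z z'| ≤ 2 ^ (j + 1) * T / K then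
          Real.pi ^ 2 * K / (T ^ 2) * (1 / 4) ^ j else 0) ≤
          2 * C * Real.pi ^ 2 * X / T * (1 / 2) ^ j + C * Real.pi ^ 2 * K / T ^ 2 * (1 / 4) ^ j := by
        intro j _
        rw [← Finset.sum_filter, Finset.sum_const, nsmul_eq_mul]
        set δ := min Real.pi (2 ^ (j + 1) * T / K) with hδd
        have hδ0 : 0 ≤ δ := le_min hpi.le (by positivity)
        have hsub : (pball t c X).filter (fun z' => |r z z'| ≤ 2 ^ (j + 1) * T / K) ⊆
            (pball t c X).filter (fun z' => ∃ m : ℤ, |ang z' - (ang z - ang u) + 2 * Real.pi * m| ≤ δ) := by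
          intro z' hz'
          rw [mem_filter] at hz' ⊢
          refine ⟨hz'.1, ?_⟩
          obtain ⟨m, hm⟩ := rd_eq (ang z - ang (u * z'))
          obtain ⟨j1, hj1⟩ := ang_mul hD hu0 (prim_ne_zero ((mem_pball hD).1 hz'.1).1)
          refine ⟨j1 - m, ?_⟩
          have e1 : ang z' - (ang z - ang u) + 2 * Real.pi * ((j1 - m : ℤ) : ℝ) = -(r z z') := by
            rw [hr]
            simp only
            rw [hm, hj1]
            push_cast; ring
          rw [e1, abs_neg]
          exact le_min (abs_rd_le _) hz'.2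
        have h1 : (((pball t c X).filter (fun z' => |r z z'| ≤ 2 ^ (j + 1) * T / K)).card : ℝ) ≤
            C * (X * (2 ^ (j + 1) * T / K) + 1) := by
          have h2 := hS X δ (ang z - ang u) hX hδ0 (min_le_left _ _)
          have h3 : (((pball t c X).filter (fun z' => |r z z'| ≤ 2 ^ (j + 1) * T / K)).card : ℝ) ≤
              (((pball t c X).filter (fun z' => ∃ m : ℤ,
                |ang z' - (ang z - ang u) + 2 * Real.pi * m| ≤ δ)).card : ℝ) := by
            exact_mod_cast Finset.card_le_card hsub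
          have h4 : C * (X * δ + 1) ≤ C * (X * (2 ^ (j + 1) * T / K) + 1) := by
            apply mul_le_mul_of_nonneg_left _ hC.le
            have := mul_le_mul_of_nonneg_left (min_le_right Real.pi (2 ^ (j + 1) * T / K)) hX0.le
            linarith
          exact h3.trans (h2.trans h4)
        calc _ ≤ C * (X * (2 ^ (j + 1) * T / K) + 1) * (Real.pi ^ 2 * K / T ^ 2 * (1 / 4) ^ j) :=
              mul_le_mul_of_nonneg_right h1 (by positivity)
          _ = 2 * C * Real.pi ^ 2 * X / T * (1 / 2) ^ j + C * Real.pi ^ 2 * K / T ^ 2 * (1 / 4) ^ j := by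
              have e1 : (2 : ℝ) ^ (j + 1) * (1 / 4) ^ j = 2 * (1 / 2) ^ j := by
                rw [pow_succ, mul_comm ((2 : ℝ) ^ j) 2, mul_assoc, ← mul_pow]; norm_num
              have e2 : C * (X * (2 ^ (j + 1) * T / K) + 1) * (Real.pi ^ 2 * K / T ^ 2 * (1 / 4) ^ j) =
                  C * X * Real.pi ^ 2 / T * (2 ^ (j + 1) * (1 / 4) ^ j) +
                    C * Real.pi ^ 2 * K / T ^ 2 * (1 / 4) ^ j := by
                field_simp
              rw [e2, e1]; ring
      refine (Finset.sum_le_sum hj).trans ?_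
      rw [Finset.sum_add_distrib, ← Finset.mul_sum, ← Finset.mul_sum]
      have g1 := mul_le_mul_of_nonneg_left (geom_half (K + 2))
        (by positivity : 0 ≤ 2 * C * Real.pi ^ 2 * X / T)
      have g2 := mul_le_mul_of_nonneg_left (geom_quarter (K + 2))
        (by positivity : 0 ≤ C * Real.pi ^ 2 * K / T ^ 2)
      have g3 : 0 ≤ C * Real.pi ^ 2 * X / T := by positivity
      have g4 : 0 ≤ C * Real.pi ^ 2 * K / T ^ 2 := by positivity
      calc _ ≤ 2 * C * Real.pi ^ 2 * X / T * 2 + C * Real.pi ^ 2 * K / T ^ 2 * 2 := add_le_add g1 g2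
        _ = 4 * (C * Real.pi ^ 2 * X / T) + 2 * (C * Real.pi ^ 2 * K / T ^ 2) := by ring
        _ ≤ 8 * (C * Real.pi ^ 2 * X / T) + 8 * (C * Real.pi ^ 2 * K / T ^ 2) := by linarith
        _ = 8 * C * Real.pi ^ 2 * (X / T + K / T ^ 2) := by ring
    refine (Finset.sum_le_sum hone).trans ?_
    rw [Finset.sum_const, nsmul_eq_mul]
    have hcard : ((pball t c X).card : ℝ) ≤ (kap t c + CL) * X := by
      have h1 : ((pball t c X).card : ℝ) ≤ ((ball t c X).card : ℝ) := by
        exact_mod_cast Finset.card_le_card (Finset.filter_subset _ _)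
      have hL1 := hL X 1 0 hX le_rfl
      rw [filter_true_of_mem (by intro z _; unfold lat; simp)] at hL1
      have h2 := (abs_le.1 hL1).2
      rw [Nat.cast_one, div_one] at h2
      have h3 : Real.sqrt X ≤ X := by
        rw [Real.sqrt_le_left hX0.le]
        nlinarith
      have h4 := mul_le_mul_of_nonneg_left h3 hCL.le
      linarith
    calc ((pball t c X).card : ℝ) * (8 * C * Real.pi ^ 2 * (X / T + K / T ^ 2))
        ≤ (kap t c + CL) * X * (8 * C * Real.pi ^ 2 * (X / T + K / T ^ 2)) :=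
          mul_le_mul_of_nonneg_right hcard (by positivity)
      _ = (kap t c + CL) * (8 * C * Real.pi ^ 2) * (X ^ 2 / T + X * K / T ^ 2) := by ring
  have hfar' : ∑ z ∈ cball col X, ∑ z' ∈ cball col X,
      ∑ j ∈ range (K + 2), (if |r z z'| ≤ 2 ^ (j + 1) * T / K then
        Real.pi ^ 2 * K / (T ^ 2) * (1 / 4) ^ j else 0) ≤
      (kap t c + CL) * (8 * C * Real.pi ^ 2) * (X ^ 2 / T + X * K / T ^ 2) := by
    have hnn : ∀ z z' : Qd t c, 0 ≤ ∑ j ∈ range (K + 2), (if |r z z'| ≤ 2 ^ (j + 1) * T / K then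
        Real.pi ^ 2 * K / (T ^ 2) * (1 / 4) ^ j else 0) := by
      intro z z'
      apply Finset.sum_nonneg
      intro j _
      split_ifs
      · positivity
      · exact le_rfl
    refine le_trans ?_ hfar
    calc _ ≤ ∑ z ∈ cball col X, ∑ z' ∈ pball t c X,
      ∑ j ∈ range (K + 2), (if |r z z'| ≤ 2 ^ (j + 1) * T / K then
        Real.pi ^ 2 * K / (T ^ 2) * (1 / 4) ^ j else 0) := by
          apply Finset.sum_le_sum
          intro z _
          exact Finset.sum_le_sum_of_subset_of_nonneg hcp (fun z' _ _ => hnn z z')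
      _ ≤ _ := Finset.sum_le_sum_of_subset_of_nonneg hcp
          (fun z _ _ => Finset.sum_nonneg fun z' _ => hnn z z')
  have htot : ∑ z ∈ cball col X, ∑ z' ∈ cball col X,
      (if gl z ≠ gl (u * z') then Fj K (ang z - ang (u * z')) else 0) ≤
      C ^ 2 * (K * (T * X / K + 1) ^ 2 * (B.card : ℝ)) +
      (kap t c + CL) * (8 * C * Real.pi ^ 2) * (X ^ 2 / T + X * K / T ^ 2) := by
    refine (Finset.sum_le_sum fun z hz => Finset.sum_le_sum fun z' hz' => hpt z hz z' hz').trans ?_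
    simp only [Finset.sum_add_distrib] at hnear hfar' ⊢
    linarith
  refine htot.trans ?_
  have a1 : 0 ≤ (K : ℝ) * (T * X / K + 1) ^ 2 * (B.card : ℝ) := by positivity
  have a2 : 0 ≤ X ^ 2 / T + X * K / T ^ 2 := by positivity
  have a3 : 0 ≤ (kap t c + CL) * (8 * C * Real.pi ^ 2) := by positivity
  have a4 : 0 ≤ C ^ 2 := by positivity
  have b1 := mul_nonneg a3 a1
  have b2 := mul_nonneg a4 a2
  calc _ ≤ C ^ 2 * (K * (T * X / K + 1) ^ 2 * (B.card : ℝ)) +
      (kap t c + CL) * (8 * C * Real.pi ^ 2) * (X ^ 2 / T + X * K / T ^ 2) +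
      ((kap t c + CL) * (8 * C * Real.pi ^ 2)) * (K * (T * X / K + 1) ^ 2 * (B.card : ℝ))
      + C ^ 2 * (X ^ 2 / T + X * K / T ^ 2) := by linarith
    _ = _ := by ring

end Pool.Agent.W571.GC
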