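import Pool.Agent.W571.GC.Step

/-!
Project GC, tasks GC-8 and GC-9 (helper571): paths between two elements with different signs.
-/

set_option autoImplicit false

namespace Pool.Agent.W571.GC

open Finset
open Pool.Agent.H376R2.MR Pool.Agent.W78.GA Pool.Agent.W78.GC Pool.Agent.W803.GA

/-! ### GC-8 -/

lemma odd_nm (z : Qd 0 1) : Odd (nm z) ↔ Odd (z.re + z.im) := by
  unfold nm
  rw [Int.natAbs_odd]
  have : z.re ^ 2 + 0 * z.re * z.im + 1 * z.im ^ 2 = z.re * z.re + z.im * z.im := by ring
  rw [this, Int.odd_add, Int.odd_add, Int.odd_mul, Int.even_mul]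
  simp

lemma hD01 : (0 : ℤ) ^ 2 < 4 * 1 := by norm_num

theorem betwe : S_BETWE := by
  intro F hF X
  have key : ∀ N : ℕ, ∀ z z' : Qd 0 1, dt z z' ≤ N → z ∈ pball 0 1 X → z' ∈ pball 0 1 X →
      Odd (nm z) → Odd (nm z') → 0 < dt z z' → F z ≠ F z' →
      ∃ p p' q : Qd 0 1, p ∈ pball 0 1 X ∧ p' ∈ pball 0 1 X ∧ Odd (nm p) ∧ Odd (nm p') ∧
      dt p p' = 1 ∧ F p ≠ F p' ∧ 0 ≤ dt z q ∧ 0 ≤ dt q z' ∧
      (q = p ∨ q = -p ∨ q = p' ∨ q = -p' ∨ q = p + p' ∨ q = -(p + p') ∨ q = p - p' ∨
        q = -(p - p')) := by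
    intro N
    induction N with
    | zero =>
      intro z z' h _ _ _ _ h2
      exfalso
      push_cast at h
      omega
    | succ N ih =>
      intro z z' hN hz hz' ho ho' hd hne
      rcases (show dt z z' = 1 ∨ 2 ≤ dt z z' by omega) with h1 | h2
      · exact ⟨z, z', z, hz, hz', ho, ho', h1, hne, by rw [dt_self], by omega, Or.inl rfl⟩
      obtain ⟨q, k, hk, hq, hzq, hqz, hqz2, hb, hbz, hbz2⟩ := step hD01 hz hz' h2
      by_cases hoq : Odd (nm q)
      · by_cases hFq : F z = F q
        · obtain ⟨p, p', v, c1, c2, c3, c4, c5, c6, c7, c8, c9⟩ := ih q z' (by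
            push_cast at hN
            omega) hq hz' hoq ho' hqz (by rw [← hFq]; exact hne)
          exact ⟨p, p', v, c1, c2, c3, c4, c5, c6,
            sector_left (by omega) hqz hd.le c7 c8, c8, c9⟩
        · exact ⟨z, q, z, hz, hq, ho, hoq, hzq, hFq, by rw [dt_self], hd.le, Or.inl rfl⟩
      · -- `q` has even norm
        have heq : Even (q.re + q.im) := by
          rw [odd_nm] at hoq
          exact Int.not_odd_iff_even.1 hoq
        have hzo := (odd_nm z).1 ho
        set b := ((k : ℤ) : Qd 0 1) * q - z with hbdef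
        have hob : Odd (nm b) := by
          rw [odd_nm]
          have e : b.re + b.im = k * (q.re + q.im) - (z.re + z.im) := by
            rw [hbdef]; simp; ring
          rw [e]
          exact (heq.mul_left _).sub_odd hzo
        have hzb : dt z b = k := by
          rw [hbdef, dt_sub_right, dt_mul_right, dt_self, hzq]; ring
        by_cases hFb : F z = F b
        · have hr : 0 < dt b z' := by
            rcases hbz.lt_or_eq with h | h
            · exact h
            · exfalso
              rcases dt_zero ((mem_pball hD01).1 hb).1 ((mem_pball hD01).1 hz').1 h.symm with h | h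
              · exact hne (by rw [hFb, h])
              · exact hne (by rw [hFb, h, hF])
          obtain ⟨p, p', v, c1, c2, c3, c4, c5, c6, c7, c8, c9⟩ := ih b z' (by
            push_cast at hN
            omega) hb hz' hob ho' hr (by rw [← hFb]; exact hne)
          exact ⟨p, p', v, c1, c2, c3, c4, c5, c6,
            sector_left (by omega) hr hd.le c7 c8, c8, c9⟩
        · -- the path from `z` to `-b`
          set P : ℕ → Qd 0 1 := fun j => z - ((j : ℤ) : Qd 0 1) * q with hP
          have hPk : P k = -b := by rw [hP, hbdef]; simp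
          have hP0 : P 0 = z := by rw [hP]; simp
          have hstep : ∃ j : ℕ, j < k ∧ F (P j) ≠ F (P (j + 1)) := by
            by_contra hcon
            push Not at hcon
            have hall : ∀ j : ℕ, j ≤ k → F (P j) = F (P 0) := by
              intro j
              induction j with
              | zero => intro _; rfl
              | succ j ihj =>
                intro hj
                rw [← hcon j (by omega)]
                exact ihj (by omega)
            have := hall k le_rfl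
            rw [hPk, hP0, hF] at this
            exact hFb this.symm
          obtain ⟨j, hj, hjF⟩ := hstep
          have hmem : ∀ j : ℕ, j ≤ k → P j ∈ pball 0 1 X := by
            intro j hj
            rw [mem_pball hD01]
            constructor
            · apply prim_of_dt_left (y := q)
              rw [hP]
              simp only
              rw [dt_sub_left, dt_mul_left, dt_self, hzq]; ring
            · apply nm_conv hD01 (D := k) (a := k - j) (b := j) (z := z) (z' := -b) (by omega)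
                (by omega) (by omega) (by omega) _ ((mem_pball hD01).1 hz).2
              · rw [nm_neg]
                exact ((mem_pball hD01).1 hb).2
              · rw [hP, hbdef]
                simp only
                push_cast
                ring
          have hodd : ∀ j : ℕ, Odd (nm (P j)) := by
            intro j
            rw [odd_nm]
            have e : (P j).re + (P j).im = (z.re + z.im) - j * (q.re + q.im) := by
              rw [hP]; simp; ring
            rw [e]
            exact hzo.sub_even (heq.mul_left _)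
          refine ⟨P (j + 1), P j, q, hmem _ (by omega), hmem _ (by omega), hodd _, hodd _, ?_,
            fun h => hjF h.symm, by omega, hqz.le, ?_⟩
          · rw [hP]
            simp only
            push_cast
            have e : z - ((j : Qd 0 1) + 1) * q = (z - ((j : ℤ) : Qd 0 1) * q) - q := by
              push_cast; ring
            have e2 : z - (j : Qd 0 1) * q = z - ((j : ℤ) : Qd 0 1) * q := by push_cast; ring
            rw [e, e2, dt_sub_left, dt_self, dt_swap q, dt_sub_left, dt_mul_left, dt_self, hzq]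
            ring
          · right; right; right; right; right; right; right
            rw [hP]
            simp only
            push_cast
            ring
  intro z z' hz hz' ho ho' hd hne
  exact key (dt z z').toNat z z' (by omega) hz hz' ho ho' hd hne

/-! ### GC-9 -/

lemma hD33 : (3 : ℤ) ^ 2 < 4 * 3 := by norm_num

lemma mem_cball3 {X : ℝ} {z : Qd 3 3} : z ∈ cball col3 X ↔ z ∈ pball 3 3 X ∧ ¬ (3 : ℤ) ∣ z.re := by
  classical
  unfold cball
  rw [mem_filter]
  rfl

/-- norm of a sum -/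
lemma nm_add_le {t c : ℤ} (hD : t ^ 2 < 4 * c) {X : ℝ} {z z' : Qd t c} (hz : (nm z : ℝ) ≤ X)
    (hz' : (nm z' : ℝ) ≤ X) : (nm (z + z') : ℝ) ≤ 4 * X := by
  have hX : 0 ≤ X := (Nat.cast_nonneg _).trans hz
  have nz : ‖tc z‖ ≤ √X := by rw [norm_tc hD]; exact Real.sqrt_le_sqrt hz
  have nz' : ‖tc z'‖ ≤ √X := by rw [norm_tc hD]; exact Real.sqrt_le_sqrt hz'
  rw [nm_eq_norm_sq hD, tc_add]
  calc ‖tc z + tc z'‖ ^ 2 ≤ (2 * √X) ^ 2 := by
        gcongr
        calc _ ≤ ‖tc z‖ + ‖tc z'‖ := norm_add_le _ _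
          _ ≤ _ := by linarith
    _ = 4 * X := by rw [mul_pow, Real.sq_sqrt hX]; ring

/-- the claim -/
def Good (X : ℝ) (z z' : Qd 3 3) : Prop := ∃ a w b : Qd 3 3, a ∈ pball 3 3 (4 * X) ∧
  w ∈ pball 3 3 (4 * X) ∧ b ∈ pball 3 3 (4 * X) ∧ dt a w = 1 ∧ dt w b = 1 ∧ (3 : ℤ) ∣ w.re ∧
  gl a ≠ gl b ∧ ((0 ≤ dt z w ∧ 0 ≤ dt w z') ∨
    ((∃ a', (a' = a ∨ a' = -a) ∧ 0 ≤ dt z a' ∧ 0 ≤ dt a' z') ∧
      ∃ b', (b' = b ∨ b' = -b) ∧ 0 ≤ dt z b' ∧ 0 ≤ dt b' z'))

lemma pball_mono {X : ℝ} {z : Qd 3 3} (hz : z ∈ pball 3 3 X) : z ∈ pball 3 3 (4 * X) := by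
  rw [mem_pball hD33] at hz ⊢
  have : (0 : ℝ) ≤ nm z := Nat.cast_nonneg _
  exact ⟨hz.1, by linarith [hz.2]⟩

lemma good_one {X : ℝ} {z z' : Qd 3 3} (hz : z ∈ pball 3 3 X) (hz' : z' ∈ pball 3 3 X)
    (h3 : ¬ (3 : ℤ) ∣ z.re) (h3' : ¬ (3 : ℤ) ∣ z'.re) (hd : dt z z' = 1) (hne : gl z ≠ gl z') :
    Good X z z' := by
  have hn := ((mem_pball hD33).1 hz).2
  have hn' := ((mem_pball hD33).1 hz').2
  have hor : (3 : ℤ) ∣ z.re + z'.re ∨ (3 : ℤ) ∣ z'.re - z.re := by
    rcases (show z.re % 3 = 1 ∨ z.re % 3 = 2 by omega) with h1 | h1 <;>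
    rcases (show z'.re % 3 = 1 ∨ z'.re % 3 = 2 by omega) with h2 | h2
    · right; omega
    · left; omega
    · left; omega
    · right; omega
  rcases hor with h | h
  · refine ⟨z, z + z', z', pball_mono hz, ?_, pball_mono hz', ?_, ?_, ?_, hne, Or.inl ⟨?_, ?_⟩⟩
    · rw [mem_pball hD33]
      refine ⟨?_, nm_add_le hD33 hn hn'⟩
      apply Pool.Agent.W803.GA.prim_of_dt (z := z)
      rw [dt_add_right, dt_self, hd]; ring
    · rw [dt_add_right, dt_self, hd]; ring
    · rw [dt_add_left, dt_self, hd]; ring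
    · simpa using h
    · rw [dt_add_right, dt_self, hd]; norm_num
    · rw [dt_add_left, dt_self, hd]; norm_num
  · refine ⟨z, z' - z, -z', pball_mono hz, ?_, ?_, ?_, ?_, ?_, ?_, Or.inr ⟨⟨z, Or.inl rfl, ?_, ?_⟩,
      z', Or.inr (by simp), ?_, ?_⟩⟩
    · rw [mem_pball hD33]
      constructor
      · apply Pool.Agent.W803.GA.prim_of_dt (z := z)
        rw [dt_sub_right, dt_self, hd]; ring
      · have := nm_add_le hD33 (z := z') (z' := -z) hn' (by rw [nm_neg]; exact hn)
        rwa [← sub_eq_add_neg] at this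
    · have := pball_mono hz'
      rw [mem_pball hD33] at this ⊢
      rw [prim_neg, nm_neg]
      exact this
    · rw [dt_sub_right, dt_self, hd]; ring
    · rw [dt_sub_left, dt_neg_right, dt_neg_right, dt_self, hd]; ring
    · simpa using h
    · rwa [gl_neg]
    · rw [dt_self]
    · omega
    · omega
    · rw [dt_self]

lemma good_left {X : ℝ} {z z' b : Qd 3 3} (h1 : 0 ≤ dt z b) (h2 : 0 < dt b z') (h3 : 0 ≤ dt z z')
    (h : Good X b z') : Good X z z' := by
  obtain ⟨a, w, b1, c1, c2, c3, c4, c5, c6, c7, c8⟩ := h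
  refine ⟨a, w, b1, c1, c2, c3, c4, c5, c6, c7, ?_⟩
  rcases c8 with ⟨d1, d2⟩ | ⟨⟨a', e1, e2, e3⟩, b', e4, e5, e6⟩
  · exact Or.inl ⟨sector_left h1 h2 h3 d1 d2, d2⟩
  · exact Or.inr ⟨⟨a', e1, sector_left h1 h2 h3 e2 e3, e3⟩,
      b', e4, sector_left h1 h2 h3 e5 e6, e6⟩

lemma good_right {X : ℝ} {z z' b : Qd 3 3} (h1 : 0 < dt z b) (h2 : 0 ≤ dt b z') (h3 : 0 ≤ dt z z')
    (h : Good X z b) : Good X z z' := by
  obtain ⟨a, w, b1, c1, c2, c3, c4, c5, c6, c7, c8⟩ := h
  refine ⟨a, w, b1, c1, c2, c3, c4, c5, c6, c7, ?_⟩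
  rcases c8 with ⟨d1, d2⟩ | ⟨⟨a', e1, e2, e3⟩, b', e4, e5, e6⟩
  · exact Or.inl ⟨d1, sector_right h1 h2 h3 d1 d2⟩
  · exact Or.inr ⟨⟨a', e1, e2, sector_right h1 h2 h3 e2 e3⟩,
      b', e4, e5, sector_right h1 h2 h3 e5 e6⟩

lemma good (X : ℝ) : ∀ N : ℕ, ∀ z z' : Qd 3 3, dt z z' ≤ N → z ∈ pball 3 3 X → z' ∈ pball 3 3 X →
    ¬ (3 : ℤ) ∣ z.re → ¬ (3 : ℤ) ∣ z'.re → 0 < dt z z' → gl z ≠ gl z' → Good X z z' := by
  intro N
  induction N with
  | zero =>
    intro z z' h _ _ _ _ h2
    exfalso
    push_cast at h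
    omega
  | succ N ih =>
    intro z z' hN hz hz' h3 h3' hd hne
    rcases (show dt z z' = 1 ∨ 2 ≤ dt z z' by omega) with h1 | h2
    · exact good_one hz hz' h3 h3' h1 hne
    obtain ⟨q, k, hk, hq, hzq, hqz, hqz2, hb, hbz, hbz2⟩ := step hD33 hz hz' h2
    by_cases h3q : (3 : ℤ) ∣ q.re
    · set b := ((k : ℤ) : Qd 3 3) * q - z with hbdef
      have h3b : ¬ (3 : ℤ) ∣ b.re := by
        have e : b.re = k * q.re - z.re := by rw [hbdef]; simp
        rw [e]
        intro h
        apply h3
        have h4 : (3 : ℤ) ∣ k * q.re := h3q.mul_left _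
        have := dvd_sub h4 h
        simpa using this
      have hzb : dt z b = k := by
        rw [hbdef, dt_sub_right, dt_mul_right, dt_self, hzq]; ring
      have hqb : dt q b = 1 := by
        rw [hbdef, dt_sub_right, dt_mul_right, dt_self, dt_swap q z, hzq]; ring
      by_cases hgb : gl z = gl b
      · have hr : 0 < dt b z' := by
          rcases hbz.lt_or_eq with h | h
          · exact h
          · exfalso
            rcases dt_zero ((mem_pball hD33).1 hb).1 ((mem_pball hD33).1 hz').1 h.symm with h | h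
            · exact hne (by rw [hgb, h])
            · exact hne (by rw [hgb, h, gl_neg])
        exact good_left (by omega) hr hd.le (ih b z' (by push_cast at hN; omega) hb hz' h3b h3' hr
          (by rw [← hgb]; exact hne))
      · exact ⟨z, q, b, pball_mono hz, pball_mono hq, pball_mono hb, hzq, hqb, h3q, hgb,
          Or.inl ⟨by omega, hqz.le⟩⟩
    · by_cases hgq : gl z = gl q
      · exact good_left (by omega) hqz hd.le (ih q z' (by push_cast at hN; omega) hq hz' h3q h3' hqz
          (by rw [← hgq]; exact hne))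
      · exact good_right (by omega) hqz.le hd.le (good_one hz hq h3 h3q hzq hgq)

theorem betw3 : S_BETW3 := by
  classical
  intro X z z' hz hz' hd hne s hs
  obtain ⟨hz1, hz3⟩ := mem_cball3.1 hz
  obtain ⟨hz1', hz3'⟩ := mem_cball3.1 hz'
  obtain ⟨a, w, b, ha, hw, hb, haw, hwb, h3, hab, hsec⟩ := good X (dt z z').toNat z z' (by omega)
    hz1 hz1' hz3 hz3' hd hne
  have hipa : (3 : ℤ) ∣ ip a w := by
    have : ip a w = a.re * w.re + 3 * (a.im * w.re + a.im * w.im) := by unfold ip; ring
    rw [this]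
    exact dvd_add (h3.mul_left _) (dvd_mul_right _ _)
  have hipb : (3 : ℤ) ∣ ip w b := by
    have : ip w b = w.re * b.re + 3 * (w.im * b.re + w.im * b.im) := by unfold ip; ring
    rw [this]
    exact dvd_add (h3.mul_right _) (dvd_mul_right _ _)
  have ha0 := nm_pos hD33 (prim_ne_zero ((mem_pball hD33).1 ha).1)
  have hb0 := nm_pos hD33 (prim_ne_zero ((mem_pball hD33).1 hb).1)
  have hw0 := nm_pos hD33 (prim_ne_zero ((mem_pball hD33).1 hw).1)
  have hla : lam (NN (a, w)) = gl a * gl w := by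
    unfold NN gl
    exact lam_mul ha0.ne' hw0.ne'
  have hlb : lam (NN (w, b)) = gl w * gl b := by
    unfold NN gl
    exact lam_mul hw0.ne' hb0.ne'
  have hor : lam (NN (a, w)) = s ∨ lam (NN (w, b)) = s := by
    rw [hla, hlb]
    rcases gl_eq a with h1 | h1 <;> rcases gl_eq b with h2 | h2 <;> rcases gl_eq w with h3 | h3 <;>
    rcases hs with h4 | h4 <;> simp_all
  rcases hor with hl | hl
  · refine ⟨(a, w), ?_, ?_⟩
    · simp only [EP, dedge, mem_filter, mem_product]
      exact ⟨⟨⟨ha, hw⟩, haw⟩, hipa, hl⟩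
    · rcases hsec with ⟨d1, d2⟩ | ⟨⟨a', e1, e2, e3⟩, -⟩
      · exact ⟨w, d1, d2, Or.inr (Or.inr (Or.inl rfl))⟩
      · refine ⟨a', e2, e3, ?_⟩
        rcases e1 with h | h
        · exact Or.inl h
        · exact Or.inr (Or.inl h)
  · refine ⟨(w, b), ?_, ?_⟩
    · simp only [EP, dedge, mem_filter, mem_product]
      exact ⟨⟨⟨hw, hb⟩, hwb⟩, hipb, hl⟩
    · rcases hsec with ⟨d1, d2⟩ | ⟨-, b', e1, e2, e3⟩
      · exact ⟨w, d1, d2, Or.inl rfl⟩
      · refine ⟨b', e2, e3, ?_⟩
        rcases e1 with h | h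
        · exact Or.inr (Or.inr (Or.inl h))
        · exact Or.inr (Or.inr (Or.inr h))

end Pool.Agent.W571.GC
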