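import Pool.Agent.W803.GA.Sect
import Pool.Agent.W78.GC.Defs

/-!
Project GC (helper571): a step of the reduction of a sector, used for GC-8 and GC-9.
-/

set_option autoImplicit false

namespace Pool.Agent.W571.GC

open Finset
open Pool.Agent.H376R2.MR Pool.Agent.W78.GA Pool.Agent.W78.GC Pool.Agent.W803.GA

variable {t c : ℤ}

lemma tc_add (z u : Qd t c) : tc (z + u) = tc z + tc u := by
  apply Complex.ext
  · simp [tc]; ring
  · simp [tc]; ring

/-- the norm is convex -/
lemma nm_conv (hD : t ^ 2 < 4 * c) {X : ℝ} {z z' v : Qd t c} {D a b : ℤ} (hDp : 0 < D) (ha : 0 ≤ a)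
    (hb : 0 ≤ b) (hab : a + b ≤ D) (h : (D : Qd t c) * v = (a : Qd t c) * z + (b : Qd t c) * z')
    (hz : (nm z : ℝ) ≤ X) (hz' : (nm z' : ℝ) ≤ X) : (nm v : ℝ) ≤ X := by
  have hX : 0 ≤ X := (Nat.cast_nonneg _).trans hz
  have nz : ‖tc z‖ ≤ √X := by rw [norm_tc hD]; exact Real.sqrt_le_sqrt hz
  have nz' : ‖tc z'‖ ≤ √X := by rw [norm_tc hD]; exact Real.sqrt_le_sqrt hz'
  have h1 : (D : ℝ) * ‖tc v‖ ≤ (D : ℝ) * √X := by
    have hDR : (0 : ℝ) < D := by exact_mod_cast hDp
    have haR : (0 : ℝ) ≤ a := by exact_mod_cast ha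
    have hbR : (0 : ℝ) ≤ b := by exact_mod_cast hb
    have habR : (a : ℝ) + b ≤ D := by exact_mod_cast hab
    have e : (D : ℝ) * ‖tc v‖ = ‖(a : ℂ) * tc z + (b : ℂ) * tc z'‖ := by
      have := congrArg tc h
      rw [tc_add, tc_mul hD, tc_mul hD, tc_mul hD, tc_intCast, tc_intCast, tc_intCast] at this
      rw [← this, norm_mul]
      congr 1
      rw [Complex.norm_intCast, abs_of_pos hDR]
    rw [e]
    calc ‖(a : ℂ) * tc z + (b : ℂ) * tc z'‖ ≤ ‖(a : ℂ) * tc z‖ + ‖(b : ℂ) * tc z'‖ := norm_add_le _ _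
      _ = a * ‖tc z‖ + b * ‖tc z'‖ := by
          rw [norm_mul, norm_mul, Complex.norm_intCast, Complex.norm_intCast, abs_of_nonneg haR,
            abs_of_nonneg hbR]
      _ ≤ a * √X + b * √X := by gcongr
      _ = (a + b) * √X := by ring
      _ ≤ D * √X := by gcongr
  have h2 : ‖tc v‖ ≤ √X := le_of_mul_le_mul_left h1 (by exact_mod_cast hDp)
  rw [nm_eq_norm_sq hD]
  calc ‖tc v‖ ^ 2 ≤ (√X) ^ 2 := by gcongr
    _ = X := Real.sq_sqrt hX

lemma dt_add_left (z u v : Qd t c) : dt (z + u) v = dt z v + dt u v := by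
  unfold dt; simp; ring

lemma dt_add_right (z u v : Qd t c) : dt v (z + u) = dt v z + dt v u := by
  unfold dt; simp; ring

lemma dt_sub_left (z u v : Qd t c) : dt (z - u) v = dt z v - dt u v := by
  unfold dt; simp; ring

lemma dt_sub_right (z u v : Qd t c) : dt v (z - u) = dt v z - dt v u := by
  unfold dt; simp; ring

lemma dt_neg_left (z u : Qd t c) : dt (-z) u = -dt z u := by
  unfold dt; simp; ring

lemma dt_neg_right (z u : Qd t c) : dt z (-u) = -dt z u := by
  unfold dt; simp; ring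

lemma dt_mul_left (k : ℤ) (z u : Qd t c) : dt ((k : Qd t c) * z) u = k * dt z u := by
  unfold dt; simp; ring

lemma dt_mul_right (k : ℤ) (z u : Qd t c) : dt z ((k : Qd t c) * u) = k * dt z u := by
  unfold dt; simp; ring

lemma dt_self (z : Qd t c) : dt z z = 0 := by
  unfold dt; ring

lemma dt_swap (z u : Qd t c) : dt z u = -dt u z := by
  unfold dt; ring

lemma prim_of_dt_left {z y : Qd t c} (h : dt z y = 1) : prim z := by
  have : dt y (-z) = 1 := by rw [dt_neg_right, ← dt_swap, h]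
  have h2 := Pool.Agent.W803.GA.prim_of_dt this
  rwa [prim_neg] at h2

/-- the sector `[b, z']` is contained in the sector `[z, z']` if `b` is -/
lemma sector_left {z z' b q : Qd t c} (h1 : 0 ≤ dt z b) (h2 : 0 < dt b z') (h3 : 0 ≤ dt z z')
    (h4 : 0 ≤ dt b q) (h5 : 0 ≤ dt q z') : 0 ≤ dt z q := by
  have h := plucker z q b z'
  have h6 : 0 ≤ dt z q * dt b z' := by
    rw [h]
    exact add_nonneg (mul_nonneg h1 h5) (mul_nonneg h3 h4)
  exact nonneg_of_mul_nonneg_left h6 h2

/-- the sector `[z, b]` is contained in the sector `[z, z']` if `b` is -/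
lemma sector_right {z z' b q : Qd t c} (h1 : 0 < dt z b) (h2 : 0 ≤ dt b z') (h3 : 0 ≤ dt z z')
    (h4 : 0 ≤ dt z q) (h5 : 0 ≤ dt q b) : 0 ≤ dt q z' := by
  have h : dt q z' * dt z b = dt q b * dt z z' + dt z q * dt b z' := by
    unfold dt; ring
  have h6 : 0 ≤ dt q z' * dt z b := by
    rw [h]
    exact add_nonneg (mul_nonneg h5 h3) (mul_nonneg h4 h2)
  exact nonneg_of_mul_nonneg_left h6 h1

/-- the first step -/
lemma exists_q0 {z z' : Qd t c} (hzp : prim z) (hzp' : prim z') (hm : 2 ≤ dt z z') :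
    ∃ (u : Qd t c) (b : ℤ), 0 < b ∧ b < dt z z' ∧ dt z u = 1 ∧ dt u z' = b ∧
      ((dt z z' : ℤ) : Qd t c) * u = (b : Qd t c) * z + z' := by
  set m := dt z z' with hmdef
  obtain ⟨u0, hu0⟩ := exists_dt_one hzp
  -- z' = a z + m u0
  have hzz : ∃ a : ℤ, z' = (a : Qd t c) * z + (m : Qd t c) * u0 := by
    have h1 : dt z (z' - (m : Qd t c) * u0) = 0 := by
      rw [dt_sub_right, dt_mul_right, hu0, ← hmdef]; ring
    -- multiple of z
    set q := z' - (m : Qd t c) * u0 with hq
    unfold dt at hu0 h1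
    set a := q.re * u0.im - q.im * u0.re with ha
    refine ⟨a, ?_⟩
    have e1 : q.re = a * z.re := by rw [ha]; linear_combination (-q.re) * hu0 + u0.re * h1
    have e2 : q.im = a * z.im := by rw [ha]; linear_combination (-q.im) * hu0 + u0.im * h1
    have : q = (a : Qd t c) * z := by
      apply QuadraticAlgebra.ext
      · simp [e1]
      · simp [e2]
    rw [← this, hq]; ring
  obtain ⟨a, ha⟩ := hzz
  -- reduce modulo m
  set b := (-a) % m with hb
  have hmpos : 0 < m := by omega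
  have hb0 : 0 ≤ b := Int.emod_nonneg _ hmpos.ne'
  have hbm : b < m := Int.emod_lt_of_pos _ hmpos
  obtain ⟨τ, hτ⟩ : ∃ τ : ℤ, -a = b + m * τ := ⟨(-a) / m, (Int.emod_add_mul_ediv _ _).symm⟩
  -- m u = b z + z'
  set u := u0 - (τ : Qd t c) * z with hu
  have hmu : (m : Qd t c) * u = (b : Qd t c) * z + z' := by
    rw [hu, ha]
    have : (a : Qd t c) = -((b : Qd t c) + (m : Qd t c) * (τ : Qd t c)) := by
      have : a = -(b + m * τ) := by linarith
      rw [this]; push_cast; ring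
    rw [this]; ring
  have hdu : dt z u = 1 := by
    rw [hu, dt_sub_right, dt_mul_right, dt_self, hu0]; ring
  have hduz : dt u z' = b := by
    have h1 : m * dt u z' = b * dt z z' := by
      rw [← dt_mul_left, hmu, dt_add_left, dt_mul_left, dt_self]; ring
    rw [← hmdef] at h1
    have : m * dt u z' = m * b := by linarith
    exact mul_left_cancel₀ hmpos.ne' this
  have hbpos : 0 < b := by
    rcases hb0.lt_or_eq with h | h
    · exact h
    · exfalso
      rw [← h] at hmu
      simp only [Int.cast_zero, zero_mul, zero_add] at hmu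
      unfold prim at hzp'
      have e1 : z'.re = m * u.re := by rw [← hmu]; simp
      have e2 : z'.im = m * u.im := by rw [← hmu]; simp
      rw [e1, e2, Int.gcd_mul_left] at hzp'
      have : m.natAbs = 1 := Nat.eq_one_of_mul_eq_one_right hzp'
      omega
  exact ⟨u, b, hbpos, hbm, hdu, hduz, hmu⟩

/-- a step of the reduction -/
lemma step (hD : t ^ 2 < 4 * c) {X : ℝ} {z z' : Qd t c} (hz : z ∈ pball t c X)
    (hz' : z' ∈ pball t c X) (hm : 2 ≤ dt z z') :
    ∃ (q : Qd t c) (k : ℕ), 1 ≤ k ∧ q ∈ pball t c X ∧ dt z q = 1 ∧ 0 < dt q z' ∧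
      dt q z' < dt z z' ∧ ((k : ℤ) : Qd t c) * q - z ∈ pball t c X ∧
      0 ≤ dt (((k : ℤ) : Qd t c) * q - z) z' ∧ dt (((k : ℤ) : Qd t c) * q - z) z' < dt q z' := by
  obtain ⟨hzp, hzX⟩ := (mem_pball hD).1 hz
  obtain ⟨hzp', hzX'⟩ := (mem_pball hD).1 hz'
  obtain ⟨q, b, hb0, hbm, hzq, hqz, hmu⟩ := exists_q0 hzp hzp' hm
  have hq : q ∈ pball t c X := by
    rw [mem_pball hD]
    refine ⟨Pool.Agent.W803.GA.prim_of_dt hzq, ?_⟩
    apply nm_conv hD (D := dt z z') (a := b) (b := 1) (by omega) hb0.le (by norm_num) (by omega) _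
      hzX hzX'
    rw [hmu]
    simp
  set r := (-dt z z') % b with hr
  have hr0 : 0 ≤ r := Int.emod_nonneg _ hb0.ne'
  have hrb : r < b := Int.emod_lt_of_pos _ hb0
  have hk : b * (-((-dt z z') / b)) = dt z z' + r := by
    have := Int.emod_add_mul_ediv (-dt z z') b
    rw [← hr] at this
    linarith
  set k' := -((-dt z z') / b) with hk'
  have hk1 : 1 ≤ k' := by
    by_contra hcon
    push Not at hcon
    have : b * k' ≤ 0 := mul_nonpos_of_nonneg_of_nonpos hb0.le (by omega)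
    omega
  obtain ⟨k, hkk⟩ : ∃ k : ℕ, (k : ℤ) = k' := ⟨k'.toNat, Int.toNat_of_nonneg (by omega)⟩
  rw [← hkk] at hk
  have hdb : dt (((k : ℤ) : Qd t c) * q - z) z' = r := by
    rw [dt_sub_left, dt_mul_left, hqz]
    linarith
  refine ⟨q, k, by omega, hq, hzq, by omega, by omega, ?_, by omega, by omega⟩
  rw [mem_pball hD]
  constructor
  · apply Pool.Agent.W803.GA.prim_of_dt (z := q)
    rw [dt_sub_right, dt_mul_right, dt_self, dt_swap q z, hzq]
    ring
  · apply nm_conv hD (D := b) (a := r) (b := 1) hb0 hr0 (by norm_num) (by omega) _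
      ((mem_pball hD).1 hq).2 hzX'
    have e : z' = ((dt z z' : ℤ) : Qd t c) * q - (b : Qd t c) * z := by rw [hmu]; ring
    have e2 : ((dt z z' : ℤ) : Qd t c) = (b : Qd t c) * ((k : ℤ) : Qd t c) - (r : Qd t c) := by
      have : dt z z' = b * k - r := by linarith
      rw [this]
      push_cast
      ring
    rw [e, e2]
    push_cast
    ring

end Pool.Agent.W571.GC
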